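import Pool.Agent.H95.ILV.Targets

/-!
# PAR: the even and the odd part of the Fourier coefficients
-/

set_option autoImplicit false

open MeasureTheory AddCircle Filter Topology Pool.Agent.H87.Synth Pool.Agent.H23.Synth
  Pool.Agent.H95.ILV

namespace Pool.Agent.H50.ILV

lemma fourier_add_arg (n : ℤ) (x y : Circ) :
    (fourier n (x + y) : ℂ) = fourier n x * fourier n y := by
  simp only [fourier_apply, smul_add, toCircle_add, Circle.coe_mul]

lemma fourier_two_mul (k : ℤ) (x : Circ) :
    (fourier k ((2 : ℤ) • x) : ℂ) = fourier (2 * k) x := by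
  rw [fourier_apply, fourier_apply, smul_smul, show k * 2 = 2 * k from mul_comm k 2]

lemma fourier_pi (n : ℤ) : (fourier n ((Real.pi : ℝ) : Circ) : ℂ) = (-1) ^ n := by
  rw [fourier_eq_zpow, fourier_coe_apply]
  congr 1
  have h : 2 * (Real.pi : ℂ) * Complex.I * ((1 : ℤ) : ℂ) * (Real.pi : ℂ) /
      ((2 * Real.pi : ℝ) : ℂ) = Real.pi * Complex.I := by
    have hp : (Real.pi : ℂ) ≠ 0 := by exact_mod_cast Real.pi_ne_zero
    push_cast
    field_simp
  rw [h, Complex.exp_pi_mul_I]

lemma coeFn_sum_ex' (s : Finset ℤ) (w : ℤ → ℂ) (g : ℤ → ℤ) :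
    ((∑ k ∈ s, w k • ex (g k) : L1) : Circ → ℂ) =ᵐ[haarAddCircle]
      fun x => ∑ k ∈ s, w k * fourier (g k) x := by
  classical
  induction s using Finset.induction_on with
  | empty =>
    simp only [Finset.sum_empty]
    exact Lp.coeFn_zero _ _ _
  | insert a s ha ih =>
    rw [Finset.sum_insert ha]
    filter_upwards [Lp.coeFn_add (w a • ex (g a)) (∑ k ∈ s, w k • ex (g k)), ih,
      Lp.coeFn_smul (w a) (ex (g a)), coeFn_ex (g a)] with x h1 h2 h3 h4
    rw [h1, Pi.add_apply, h2, h3, Pi.smul_apply, h4, Finset.sum_insert ha, smul_eq_mul]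

lemma norm_sum_ex' (s : Finset ℤ) (w : ℤ → ℂ) (g : ℤ → ℤ) :
    ‖(∑ k ∈ s, w k • ex (g k) : L1)‖ =
      ∫ x : Circ, ‖∑ k ∈ s, w k * (fourier (g k) x : ℂ)‖ ∂haarAddCircle := by
  rw [Pool.Agent.H87.Synth.norm_eq]
  refine integral_congr_ae ?_
  filter_upwards [coeFn_sum_ex' s w g] with x hx
  rw [hx]

/-- decimation of a trigonometric polynomial -/
lemma dec_le (s : Finset ℤ) (w : ℤ → ℂ) (π : ℤ) :
    ‖(∑ n ∈ s.filter (fun n => (2 : ℤ) ∣ n - π), w n • ex ((n - π) / 2) : L1)‖ ≤
      ‖(∑ n ∈ s, w n • ex n : L1)‖ := by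
  rw [norm_sum_ex', norm_sum_ex]
  set q : Circ → ℂ := fun x => ∑ n ∈ s, w n * (fourier n x : ℂ) with hqd
  have hq : Continuous q :=
    continuous_finsetSum _ fun n _ => continuous_const.mul (map_continuous (fourier n))
  set h : Circ → ℂ := fun y => ∑ n ∈ s.filter (fun n => (2 : ℤ) ∣ n - π),
    w n * (fourier ((n - π) / 2) y : ℂ) with hhd
  have hh : Continuous h :=
    continuous_finsetSum _ fun n _ => continuous_const.mul (map_continuous (fourier _))
  set p : Circ := ((Real.pi : ℝ) : Circ) with hp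
  have e1 : ∫ y, ‖h y‖ ∂(haarAddCircle : Measure Circ) =
      ∫ x, ‖h ((2 : ℤ) • x)‖ ∂(haarAddCircle : Measure Circ) := by
    have mp := Measure.measurePreserving_zsmul (haarAddCircle : Measure Circ) (n := 2)
      (by norm_num)
    conv_lhs => rw [← mp.map_eq]
    rw [integral_map mp.measurable.aemeasurable hh.norm.aestronglyMeasurable]
  have e2 : ∀ x, ‖h ((2 : ℤ) • x)‖ = ‖(q x + (-1) ^ π * q (x + p)) / 2‖ := by
    intro x
    have e3 : (fourier π x : ℂ) * h ((2 : ℤ) • x) = (q x + (-1) ^ π * q (x + p)) / 2 := by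
      simp only [hhd, hqd, Finset.sum_filter, Finset.mul_sum]
      rw [← Finset.sum_add_distrib, Finset.sum_div]
      refine Finset.sum_congr rfl fun n _ => ?_
      rw [fourier_add_arg, hp, fourier_pi]
      split_ifs with h2
      · obtain ⟨k, hk⟩ := h2
        have hn : n = 2 * k + π := by linarith
        subst hn
        have h3 : (2 * k + π - π) / 2 = k := by omega
        have h4 : (-1 : ℂ) ^ π * (-1) ^ (2 * k + π) = 1 := by
          rw [← zpow_add₀ (by norm_num : (-1 : ℂ) ≠ 0)]
          have h5 : Even (π + (2 * k + π)) := ⟨π + k, by ring⟩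
          exact h5.neg_one_zpow
        rw [h3, fourier_two_mul, fourier_add]
        linear_combination (-(w (2 * k + π) * fourier (2 * k) x * fourier π x) / 2) * h4
      · have h4 : (-1 : ℂ) ^ π * (-1) ^ n = -1 := by
          rw [← zpow_add₀ (by norm_num : (-1 : ℂ) ≠ 0)]
          have h5 : Odd (π + n) := by
            rw [← Int.not_even_iff_odd]
            intro h6
            apply h2
            obtain ⟨m, hm⟩ := h6
            exact ⟨m - π, by linarith⟩
          exact h5.neg_one_zpow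
        rw [mul_zero]
        linear_combination (-(w n * fourier n x) / 2) * h4
    rw [← e3, norm_mul, fourier_norm_apply, one_mul]
  have i1 : Integrable (fun x => ‖q x‖) (haarAddCircle : Measure Circ) :=
    hq.norm.integrable_of_hasCompactSupport (HasCompactSupport.of_compactSpace _)
  have hq2 : Continuous fun x => q (x + p) := hq.comp (continuous_id.add continuous_const)
  have i2 : Integrable (fun x => ‖q (x + p)‖) (haarAddCircle : Measure Circ) :=
    hq2.norm.integrable_of_hasCompactSupport (HasCompactSupport.of_compactSpace _)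
  have i3 : Integrable (fun x => ‖(q x + (-1) ^ π * q (x + p)) / 2‖)
      (haarAddCircle : Measure Circ) := by
    have hc : Continuous fun x => (q x + (-1) ^ π * q (x + p)) / 2 :=
      (hq.add (continuous_const.mul hq2)).div_const 2
    exact hc.norm.integrable_of_hasCompactSupport (HasCompactSupport.of_compactSpace _)
  rw [e1]
  simp only [e2]
  calc ∫ x, ‖(q x + (-1) ^ π * q (x + p)) / 2‖ ∂(haarAddCircle : Measure Circ)
      ≤ ∫ x, (‖q x‖ + ‖q (x + p)‖) / 2 ∂(haarAddCircle : Measure Circ) := by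
        refine integral_mono i3 ((i1.add i2).div_const 2) fun x => ?_
        simp only [norm_div, RCLike.norm_ofNat]
        refine div_le_div_of_nonneg_right ?_ (by norm_num)
        refine (norm_add_le _ _).trans ?_
        rw [norm_mul, norm_zpow, norm_neg, norm_one, one_zpow, one_mul]
    _ = ∫ x, ‖q x‖ ∂(haarAddCircle : Measure Circ) := by
        rw [integral_div, integral_add i1 i2,
          integral_add_right_eq_self (fun x => ‖q x‖) p]
        ring

lemma coeff_dec (s : Finset ℤ) (w : ℤ → ℂ) (π k : ℤ) :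
    coeff (∑ n ∈ s.filter (fun n => (2 : ℤ) ∣ n - π), w n • ex ((n - π) / 2) : L1) k =
      if 2 * k + π ∈ s then w (2 * k + π) else 0 := by
  rw [coeff_sum]
  simp only [coeff_smul, coeff_ex]
  split_ifs with hs
  · rw [Finset.sum_eq_single (2 * k + π)]
    · have h3 : (2 * k + π - π) / 2 = k := by omega
      rw [if_pos h3, mul_one]
    · intro n hn hne
      rw [Finset.mem_filter] at hn
      obtain ⟨m, hm⟩ := hn.2
      rw [if_neg, mul_zero]
      intro h4
      apply hne
      omega
    · intro hn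
      exfalso
      apply hn
      rw [Finset.mem_filter]
      exact ⟨hs, ⟨k, by ring⟩⟩
  · refine Finset.sum_eq_zero fun n hn => ?_
    rw [Finset.mem_filter] at hn
    obtain ⟨m, hm⟩ := hn.2
    rw [if_neg, mul_zero]
    intro h4
    apply hs
    have : n = 2 * k + π := by omega
    rw [← this]
    exact hn.1

theorem pf_PAR : T_PAR := by
  intro h π
  have hz : ∀ (N : ℕ) (n : ℤ), n ∉ Finset.Icc (-(N : ℤ)) N → coeff (fejer N h) n = 0 := by
    intro N n hn
    rw [fejer_eq_mulOp, coeff_mulOp, if_neg hn]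
  set D : Finset ℤ → (ℤ → ℂ) → L1 := fun s w =>
    ∑ n ∈ s.filter (fun n => (2 : ℤ) ∣ n - π), w n • ex ((n - π) / 2) with hD
  have hDs : ∀ (s : Finset ℤ) (w1 w2 : ℤ → ℂ), D s (fun n => w1 n - w2 n) = D s w1 - D s w2 := by
    intro s w1 w2
    simp only [hD, sub_smul, Finset.sum_sub_distrib]
  have hPs : ∀ (s : Finset ℤ) (w1 w2 : ℤ → ℂ), (∑ n ∈ s, (w1 n - w2 n) • ex n : L1) =
      (∑ n ∈ s, w1 n • ex n) - ∑ n ∈ s, w2 n • ex n := by
    intro s w1 w2
    simp only [sub_smul, Finset.sum_sub_distrib]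
  have hDe : ∀ N K : ℕ, N ≤ K → D (Finset.Icc (-(N : ℤ)) N) (coeff (fejer N h)) =
      D (Finset.Icc (-(K : ℤ)) K) (coeff (fejer N h)) := by
    intro N K hNK
    apply ext_coeff
    intro k
    simp only [hD]
    rw [coeff_dec, coeff_dec]
    by_cases h1 : 2 * k + π ∈ Finset.Icc (-(N : ℤ)) N
    · have h2 : 2 * k + π ∈ Finset.Icc (-(K : ℤ)) K := by
        rw [Finset.mem_Icc] at h1 ⊢
        have : (N : ℤ) ≤ K := by exact_mod_cast hNK
        constructor <;> linarith [h1.1, h1.2]
      rw [if_pos h1, if_pos h2]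
    · rw [if_neg h1, hz N _ h1, ite_self]
  have hPe : ∀ N K : ℕ, N ≤ K → fejer N h =
      ∑ n ∈ Finset.Icc (-(K : ℤ)) K, coeff (fejer N h) n • ex n := by
    intro N K hNK
    apply ext_coeff
    intro k
    rw [coeff_sum]
    simp only [coeff_smul, coeff_ex]
    simp only [mul_ite, mul_one, mul_zero, Finset.sum_ite_eq']
    by_cases h1 : k ∈ Finset.Icc (-(K : ℤ)) K
    · rw [if_pos h1]
    · rw [if_neg h1]
      apply hz
      intro h2
      apply h1
      rw [Finset.mem_Icc] at h2 ⊢
      have : (N : ℤ) ≤ K := by exact_mod_cast hNK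
      constructor <;> linarith [h2.1, h2.2]
  set H : ℕ → L1 := fun N => D (Finset.Icc (-(N : ℤ)) N) (coeff (fejer N h)) with hH
  have hdist : ∀ N M : ℕ, dist (H N) (H M) ≤ dist (fejer N h) (fejer M h) := by
    intro N M
    rw [dist_eq_norm, dist_eq_norm]
    have h1 : H N - H M = D (Finset.Icc (-((max N M : ℕ) : ℤ)) ((max N M : ℕ) : ℤ))
        (fun n => coeff (fejer N h) n - coeff (fejer M h) n) := by
      rw [hDs]
      simp only [hH]
      rw [hDe N (max N M) (le_max_left _ _), hDe M (max N M) (le_max_right _ _)]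
    have h2 : fejer N h - fejer M h =
        ∑ n ∈ Finset.Icc (-((max N M : ℕ) : ℤ)) ((max N M : ℕ) : ℤ),
          (coeff (fejer N h) n - coeff (fejer M h) n) • ex n := by
      rw [hPs, ← hPe N (max N M) (le_max_left _ _), ← hPe M (max N M) (le_max_right _ _)]
    rw [h1, h2]
    exact dec_le _ _ _
  have hn : ∀ N : ℕ, ‖H N‖ ≤ ‖h‖ := by
    intro N
    have h1 : ‖H N‖ ≤ ‖fejer N h‖ := by
      conv_rhs => rw [hPe N N le_rfl]
      exact dec_le _ _ _
    exact h1.trans (norm_fejer_le N h)
  have hc : CauchySeq H := by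
    have h1 := (tendsto_fejer h).cauchySeq
    rw [Metric.cauchySeq_iff] at h1 ⊢
    intro ε hε
    obtain ⟨N, hN⟩ := h1 ε hε
    exact ⟨N, fun m hm n hn => lt_of_le_of_lt (hdist m n) (hN m hm n hn)⟩
  obtain ⟨G, hG⟩ := cauchySeq_tendsto_of_complete hc
  refine ⟨G, ?_, ?_⟩
  · intro k
    have h1 : Tendsto (fun N => coeff (H N) k) atTop (𝓝 (coeff G k)) :=
      ((coeffL k).continuous.tendsto G).comp hG
    have h2 : Tendsto (fun N => coeff (fejer N h) (2 * k + π)) atTop
        (𝓝 (coeff h (2 * k + π))) :=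
      ((coeffL (2 * k + π)).continuous.tendsto h).comp (tendsto_fejer h)
    have h3 : ∀ N, coeff (H N) k = coeff (fejer N h) (2 * k + π) := by
      intro N
      simp only [hH, hD]
      rw [coeff_dec]
      by_cases h1 : 2 * k + π ∈ Finset.Icc (-(N : ℤ)) N
      · rw [if_pos h1]
      · rw [if_neg h1, hz N _ h1]
    simp only [h3] at h1
    exact tendsto_nhds_unique h1 h2
  · exact le_of_tendsto' hG.norm hn

end Pool.Agent.H50.ILV
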